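import Pool.Agent.Helper69.LAB.Lab
import Pool.Agent.Helper80.SUB.Def

/-! The auxiliary systems `(Q_b ; leaves over V_i)` are auxiliary systems of the truncation in the sense of `Sub`. -/

set_option autoImplicit false

namespace Pool.Agent.Helper69.LAB

open Finset Filter Topology Matrix Pool.Agent.Helper69.RK Pool.Agent.Helper31.EC Pool.Agent.Helper31.EC.Sp
open Pool.Agent.Helper40.EL Pool.Agent.Helper84.MT Pool.Agent.Helper89.LX Pool.Agent.Helper3.LF
open Pool.Agent.Helper81.CPY Pool.Agent.Helper87.NSL Pool.Agent.Helper76.DIM Pool.Agent.Helper38.NSL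
open Pool.Agent.Helper80.SUB

noncomputable section

variable {S T : Sp} {M D : ℕ} {E E' : ℕ → ℕ} {ι κ : Type}

/-- COVERS GIVE AUXILIARY SYSTEMS: the windows of `s'` are known to `V i` and the cell of the point, every type `j` of `s`
has a `V (f j)` which is independent of the space given the leaf of `j` -/
theorem sub_cov (s : MSys S M E ι) (p : Pj T S) (s' : MSys T M E' κ) (hQ : s'.Q = p.vv s.Q)
    (V : κ → ∀ k, Setoid (T.F k).Ω) (f : ι → κ)
    (win : ∀ i c, 0 ≤ c → c ≤ 1 → PLe ((s'.lf i).win c) (fun k => fc (V i k ⊓ Setoid.ker (s'.Q.cellv c k))))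
    (cov : ∀ j, Nul S (fun k => I (fc (V (f j) k)) (p.fp k).top ((p.fp k).map ((s.lf j).win 0 k)))) : Sub s p s' where
  pt := hQ
  tp := fun j => by
    refine ⟨f j, fun k => fc (V (f j) k), (Lab.nul_pj p).mpr (cov j), fun c hc hc1 => ?_⟩
    obtain ⟨Q', lf'⟩ := s'
    obtain rfl : Q' = p.vv s.Q := hQ
    refine (win (f j) c hc hc1).trans ?_
    have e1 : (fun k => fc (V (f j) k ⊓ Setoid.ker ((p.vv s.Q).cellv c k))) =
        fun k => fc (V (f j) k) ⊔ (Part.pull p (fun k => fc (Setoid.ker (s.Q.cellv c k)))) k := by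
      funext k
      rw [vv_cellv, fc_inf]
      rfl
    show PLe (fun k => fc (V (f j) k ⊓ Setoid.ker ((p.vv s.Q).cellv c k))) _
    rw [e1]
    apply PLe.sup_le
    · exact PLe_of_le fun k => le_sup_right
    · exact (PLe_pull ((s.lf j).dg_win hc hc1) p).trans (PLe_of_le fun k => le_sup_left)

/-- THE AUXILIARY SYSTEMS OF THE CHAPTER, `V_i` on an extension, leaves over full coordinates -/
theorem sub_trn (s : MSys S M E ι) (p : Pj T S) {b : ℝ} (h0 : 0 < b) (h1 : b ≤ 1) {v g : ℕ} (σ : κ → Fin v → Fin M)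
    (V La : κ → ∀ k, Setoid (T.F k).Ω) (Y : κ → T.VV v) (N : κ → ℕ → ℝ) (cc : κ → ∀ k, (T.F k).Ω → Fin v → ℤ)
    (fl : κ → Leaf (T.chg T.tr b h0) ((p.vv s.Q).chg T.tr b h0) (Pool.Agent.Helper84.MT.lin g))
    (x : ∀ i, VLeaf (V i) (p.vv s.Q) (σ i) b h0 g (La i) (Y i) (N i) (cc i) (fl i)) (f : ι → κ)
    (cov : ∀ j, Nul S (fun k => I (fc (V (f j) k)) (p.fp k).top ((p.fp k).map ((s.lf j).win 0 k)))) :
    Sub (s.trn b h0 h1) (pjb p S.tr b h0)
      (⟨(p.vv s.Q).chg T.tr b h0, fl⟩ : MSys (T.chg T.tr b h0) M (Pool.Agent.Helper84.MT.lin g) κ) :=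
  sub_cov (s.trn b h0 h1) (pjb p S.tr b h0)
    (⟨(p.vv s.Q).chg T.tr b h0, fl⟩ : MSys (T.chg T.tr b h0) M (Pool.Agent.Helper84.MT.lin g) κ) rfl V f
    (fun i c _ _ => vleaf_win (x i) c) fun j => cov_trn s p h0 h1 j (cov j)

/-- the label `V0` of the space itself, one leaf for all types -/
theorem sub_trn_one (s : MSys S M E ι) {b : ℝ} (h0 : 0 < b) (h1 : b ≤ 1) {v g : ℕ} {σ : Fin v → Fin M}
    {V La : ∀ k, Setoid (S.F k).Ω} {Y : S.VV v} {N : ℕ → ℝ} {cc : ∀ k, (S.F k).Ω → Fin v → ℤ}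
    {fl : Leaf (S.chg S.tr b h0) (s.Q.chg S.tr b h0) (Pool.Agent.Helper84.MT.lin g)}
    (x : VLeaf V s.Q σ b h0 g La Y N cc fl) (hV : ∀ j, PLe (fun k => fc (V k)) ((s.lf j).win 0)) :
    Sub (s.trn b h0 h1) (pjb (Pj.id S) S.tr b h0)
      (⟨s.Q.chg S.tr b h0, fun _ => fl⟩ : MSys (S.chg S.tr b h0) M (Pool.Agent.Helper84.MT.lin g) (Fin 1)) :=
  sub_trn (κ := Fin 1) s (Pj.id S) h0 h1 (fun _ => σ) (fun _ => V) (fun _ => La) (fun _ => Y) (fun _ => N)
    (fun _ => cc) (fun _ => fl) (fun _ => x) (fun _ => 0) fun j => cov_of_PLe s (Pj.id S) j (hV j)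

/-- labels of `(Q_b ; V0)` are labels of the truncation, all resolutions -/
theorem lab_one (s : MSys S M E ι) {b : ℝ} (h0 : 0 < b) (h1 : b ≤ 1) {v g : ℕ} {σ : Fin v → Fin M}
    {V La : ∀ k, Setoid (S.F k).Ω} {Y : S.VV v} {N : ℕ → ℝ} {cc : ∀ k, (S.F k).Ω → Fin v → ℤ}
    {fl : Leaf (S.chg S.tr b h0) (s.Q.chg S.tr b h0) (Pool.Agent.Helper84.MT.lin g)}
    (x : VLeaf V s.Q σ b h0 g La Y N cc fl) (hV : ∀ j, PLe (fun k => fc (V k)) ((s.lf j).win 0))
    {R : ∀ k, Setoid (S.F k).Ω} (hR : ∀ k, R k ≤ Setoid.ker ((s.trn b h0 h1).Q.cellv 1 k)) {c : ℝ} (hc : 0 ≤ c)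
    (hc1 : c ≤ 1) {l : Lab (S.chg S.tr b h0)}
    (hl : (⟨s.Q.chg S.tr b h0, fun _ => fl⟩ : MSys (S.chg S.tr b h0) M (Pool.Agent.Helper84.MT.lin g) (Fin 1)).DMc
      c l) :
    (s.trn b h0 h1).DMc c l ∧ l.DMf (cndR (s.trn b h0 h1) R c) ∧
      ((LC.kz (pcd (s.Q.chg S.tr b h0))).ev l → (LC.kz (fun k => fc (F := (S.chg S.tr b h0).F k) (R k))).ev l) := by
  have a1 : (s.trn b h0 h1).DMc c l := by
    refine Lab.DMf.mono (A := _) hl fun o => ?_
    rcases o with _ | j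
    · exact ⟨none, PLe.refl _⟩
    · refine ⟨some 0, ?_⟩
      refine (vleaf_win x c).trans ?_
      have e1 : (fun k => fc (F := (S.chg S.tr b h0).F k) (V k ⊓ Setoid.ker ((s.Q.chg S.tr b h0).cellv c k))) =
          fun k => fc (F := (S.chg S.tr b h0).F k) (V k) ⊔
            fc (F := (S.chg S.tr b h0).F k) (Setoid.ker ((s.Q.chg S.tr b h0).cellv c k)) :=
        funext fun k => fc_inf _ _
      rw [e1]
      apply PLe.sup_le
      · have h2 : PLe (S := S.chg S.tr b h0) (fun k => fc (F := (S.chg S.tr b h0).F k) (V k))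
            (((s.trn b h0 h1).lf j).win 0) := by
          apply Pool.Agent.Helper52.SL.nul_trn.mpr
          have e2 : (fun k => h (fc (F := (S.chg S.tr b h0).F k) (V k)) (((s.trn b h0 h1).lf j).win 0 k)) =
              fun k => h (fc (V k)) ((s.lf j).win 0 k) := by
            funext k
            have e3 : ((s.lf j).Y.chg S.tr b h0).cellv 0 k = (s.lf j).Y.cellv 0 k := by
              rw [Pool.Agent.Helper52.SL.cellv_chg, mul_zero]
            have e4 : ((s.trn b h0 h1).lf j).win 0 k =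
                fc (F := (S.chg S.tr b h0).F k) ((s.lf j).La k ⊓ Setoid.ker ((s.lf j).Y.cellv 0 k)) :=
              congrArg (fun f => fc (F := (S.chg S.tr b h0).F k) ((s.lf j).La k ⊓ Setoid.ker f)) e3
            rw [e4]
            exact h_chg_top (F := S.F k) b h0 _ _
          rw [e2]
          exact hV j
        exact h2.trans (((s.trn b h0 h1).lf j).win_mono hc)
      · exact ((s.trn b h0 h1).lf j).dg_win hc hc1
  refine ⟨a1, ?_, fun hz => ?_⟩
  · refine Lab.DMf.mono (A := (s.trn b h0 h1).cnd c) a1 fun o => ?_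
    rcases o with _ | j
    · exact ⟨none, PLe_of_le fun k => fc_mono (hR k)⟩
    · exact ⟨some j, PLe.refl _⟩
  · exact Lab.KZ.mono (B := pcd (s.Q.chg S.tr b h0)) hz (Eventually.of_forall fun k => fc_mono (hR k))

end

end Pool.Agent.Helper69.LAB
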