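import Pool.Agent.Helper87.NSL.Costr
import Pool.Agent.Helper8.KL.Kl
import Pool.Agent.Helper76.DIM.Vty
import Pool.Agent.Helper81.CPY.Evn
import Pool.Agent.Helper84.MT.Fun

/-! ROW LAB of the no-slow-label chapter: labels of the auxiliary systems `(Q_b ; V_i)` are labels of the truncation
`T_b`. Here `V_i` are partitions of an extension, independent of the space given the leaf of the type `i` (copies), or
labels which are known to the leaf of the type `i`. Ordinary labels, labels over a deep point, exact K-labels, forms. -/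

set_option autoImplicit false

namespace Pool.Agent.Helper69.LAB

open Finset Filter Topology Matrix Pool.Agent.Helper69.RK Pool.Agent.Helper31.EC Pool.Agent.Helper31.EC.Sp
open Pool.Agent.Helper40.EL Pool.Agent.Helper84.MT Pool.Agent.Helper89.LX Pool.Agent.Helper3.LF
open Pool.Agent.Helper81.CPY Pool.Agent.Helper87.NSL Pool.Agent.Helper76.DIM
open Pool.Agent.Helper52.SL (untF tnF untL tnL nul_trn cellv_chg untF_leak tnF_leak)

noncomputable section

/-! ### exact calculus -/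

/-- `x` is known to `v` and `z`, and `z`, `a` are known to `b`: the information of `x` about the space given `b` is at most
the information of `v` given `a` -/
theorem leak_copy {L : Type*} [PM L] {o x v z a b : L} (hz : z ≤ o) (ha : a ≤ o) (hb : b ≤ o) :
    I x o b ≤ h x (v ⊔ z) + h z b + h a b + I v o a := by
  have h1 : I x o b ≤ I ((v ⊔ z) ⊔ x) o b := I_mono_left (le_sup_right.trans le_sup_left)
  have h2 : I ((v ⊔ z) ⊔ x) o b = I (v ⊔ z) o b + I x o ((v ⊔ z) ⊔ b) := I_chain _ _ _ _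
  have h3 : I x o ((v ⊔ z) ⊔ b) ≤ h x (v ⊔ z) := (I_le_h_left _ _ _).trans (h_anti le_sup_left)
  have h4 : I (v ⊔ z) o b = I z o b + I v o (z ⊔ b) := by
    rw [sup_comm v z]
    exact I_chain _ _ _ _
  have h5 : I z o b ≤ h z b := I_le_h_left _ _ _
  have h6 : I v (a ⊔ o) (z ⊔ b) = I v a (z ⊔ b) + I v o (a ⊔ (z ⊔ b)) := I_chain_right _ _ _ _
  have h7 : I v o (z ⊔ b) ≤ I v (a ⊔ o) (z ⊔ b) := I_mono_right (le_sup_right.trans le_sup_left)
  have h8 : I v a (z ⊔ b) ≤ h a b := (I_le_h_right _ _ _).trans (h_anti le_sup_right)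
  have h9 : I v o (a ⊔ (z ⊔ b)) ≤ I v o a := leak_cond le_sup_left (sup_le ha (sup_le hz hb))
  linarith

/-- the leak over an extension is at most the leak over the space and the leak, over the extension, of a coarser
condition of the space -/
theorem leak_ext {L : Type*} [PM L] {u o o' x z : L} (h1 : o' ≤ o) (h2 : x ≤ o') (h3 : z ≤ o') :
    I u o x ≤ I u o' x + I u o z := by
  have a1 : I u o x ≤ I u (o' ⊔ o) x := I_mono_right (le_sup_right.trans le_sup_left)
  have a2 : I u (o' ⊔ o) x = I u o' x + I u o (o' ⊔ x) := I_chain_right _ _ _ _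
  have a3 : I u o (o' ⊔ x) ≤ I u o z := by
    rw [sup_eq_left.mpr h2]
    exact leak_cond h3 h1
  linarith

/-- informations of partitions do not depend on the depth of the space -/
theorem I_chg_top {F : FSp} (r : ℝ) (h0 : 0 < r) (A B C : Setoid F.Ω) :
    I (fc (F := F.chg ⊤ r h0) A) (fc B) (fc C) = I (fc A) (fc B) (fc C) := by
  have e1 := fc_inf (F := F.chg ⊤ r h0) B C
  have e2 := fc_inf (F := F) B C
  have e3 := h_chg_top r h0 A C
  have e4 := h_chg_top r h0 A (B ⊓ C)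
  rw [I_eq, I_eq, ← e2, ← e4, ← e3]
  exact congrArg (fun y => h (fc (F := F.chg ⊤ r h0) A) (fc C) - h (fc (F := F.chg ⊤ r h0) A) y) e1.symm

/-! ### the windows of the leaves over full coordinates -/

section

variable {S : Sp} {M v : ℕ}

/-- THE WINDOWS of a leaf over full coordinates are known to `V` and the cell of the point -/
theorem vleaf_win {V : ∀ k, Setoid (S.F k).Ω} {Q : S.VV M} {σ : Fin v → Fin M} {b : ℝ} {hb : 0 < b} {g : ℕ}
    {La : ∀ k, Setoid (S.F k).Ω} {Y : S.VV v} {N : ℕ → ℝ} {c : ∀ k, (S.F k).Ω → Fin v → ℤ}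
    {f : Leaf (S.chg S.tr b hb) (Q.chg S.tr b hb) (Pool.Agent.Helper84.MT.lin g)}
    (x : VLeaf V Q σ b hb g La Y N c f) (e : ℝ) :
    PLe (S := S.chg S.tr b hb) (f.win e)
      (fun k => fc (F := (S.chg S.tr b hb).F k) (V k ⊓ Setoid.ker ((Q.chg S.tr b hb).cellv e k))) := by
  have hLa : PLe (S := S.chg S.tr b hb) (fun k => fc (F := (S.chg S.tr b hb).F k) (La k))
      (fun k => fc (F := (S.chg S.tr b hb).F k) (V k)) := by
    apply nul_trn.mpr
    have e1 : (fun k => h (fc (F := (S.chg S.tr b hb).F k) (La k)) (fc (V k))) = fun k => h (fc (La k)) (fc (V k)) :=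
      funext fun k => h_chg_top (F := S.F k) b hb (La k) (V k)
    rw [e1]
    exact x.ent
  have hV : PLe (S := S.chg S.tr b hb) (fun k => fc (F := (S.chg S.tr b hb).F k) (V k))
      (fun k => fc (F := (S.chg S.tr b hb).F k) (V k ⊓ Setoid.ker ((Q.chg S.tr b hb).cellv e k))) :=
    PLe_of_le fun k => fc_mono inf_le_left
  have hQ : PLe (S := S.chg S.tr b hb)
      (fun k => fc (F := (S.chg S.tr b hb).F k) (Setoid.ker ((Q.chg S.tr b hb).cellv e k)))
      (fun k => fc (F := (S.chg S.tr b hb).F k) (V k ⊓ Setoid.ker ((Q.chg S.tr b hb).cellv e k))) :=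
    PLe_of_le fun k => fc_mono inf_le_right
  have hY : PLe (S := S.chg S.tr b hb)
      (fun k => fc (F := (S.chg S.tr b hb).F k) (Setoid.ker (f.Y.cellv e k)))
      (fun k => fc (F := (S.chg S.tr b hb).F k) (La k ⊓ Setoid.ker ((Q.chg S.tr b hb).cellv e k))) := by
    apply PLe_cell (S := S.chg S.tr b hb) f.Y e _ N (chg_sub S.tr b hb x.subN)
    filter_upwards [x.msc, x.N1] with k h1 h2 ω ω' a a' z r i
    have h3 := h1 ω ω' a a' z.2 r.1
    obtain ⟨j, rfl⟩ : ∃ j : Fin v, i = Fin.cast x.e.symm j := ⟨Fin.cast x.e i, by ext; rfl⟩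
    have h7 : f.Y.v k ω (Fin.cast x.e.symm j) = N k * Q.v k ω (σ j) - c k ω j := (x.par k ω j).trans (x.eY k ω j)
    have h8 : f.Y.v k ω' (Fin.cast x.e.symm j) = N k * Q.v k ω' (σ j) - c k ω' j := (x.par k ω' j).trans (x.eY k ω' j)
    rw [h7, h8, h3]
    have h4 : |(Q.chg S.tr b hb).v k ω (σ j) - (Q.chg S.tr b hb).v k ω' (σ j)| ≤ (S.chg S.tr b hb).dl e k :=
      abs_sub_le_of_floor_eq ((S.chg S.tr b hb).dl_pos e k) (congrFun r.2 (σ j))
    have h5 : N k * Q.v k ω (σ j) - (c k ω' j : ℝ) - (N k * Q.v k ω' (σ j) - (c k ω' j : ℝ)) =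
        N k * (Q.v k ω (σ j) - Q.v k ω' (σ j)) := by ring
    rw [h5, abs_mul, abs_of_nonneg (zero_le_one.trans h2)]
    exact mul_le_mul_of_nonneg_left h4 (zero_le_one.trans h2)
  have e1 : f.win e = fun k => fc (F := (S.chg S.tr b hb).F k) (La k) ⊔
      fc (F := (S.chg S.tr b hb).F k) (Setoid.ker (f.Y.cellv e k)) := by
    funext k
    have e2 := fc_inf (F := (S.chg S.tr b hb).F k) (f.La k) (Setoid.ker (f.Y.cellv e k))
    rw [x.eLa] at e2
    show fc (F := (S.chg S.tr b hb).F k) (f.La k ⊓ Setoid.ker (f.Y.cellv e k)) = _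
    rw [x.eLa]
    exact e2
  rw [e1]
  apply PLe.sup_le
  · exact hLa.trans hV
  · refine hY.trans ?_
    have e2 : (fun k => fc (F := (S.chg S.tr b hb).F k) (La k ⊓ Setoid.ker ((Q.chg S.tr b hb).cellv e k))) =
        fun k => fc (F := (S.chg S.tr b hb).F k) (La k) ⊔
          fc (F := (S.chg S.tr b hb).F k) (Setoid.ker ((Q.chg S.tr b hb).cellv e k)) :=
      funext fun k => fc_inf _ _
    rw [e2]
    exact PLe.sup_le (hLa.trans hV) hQ

end

/-! ### covers: labels of auxiliary systems -/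

variable {S T : Sp} {M D : ℕ} {E E' : ℕ → ℕ} {ι κ : Type}

/-- THE WINDOWS OF AN AUXILIARY SYSTEM ARE GENERATED BY THE WINDOWS OF THE SYSTEM: `V` is independent of the space given
the leaf of the type `j`, `X` is known to `V` and the cell of level `c` of the point -/
theorem nul_cov (s : MSys S M E ι) (p : Pj T S) (j : ι) {V : ∀ k, Setoid (T.F k).Ω} {X : Part T} {c : ℝ} (hc : 0 ≤ c)
    (hc1 : c ≤ 1) (hV : Nul S (fun k => I (fc (V k)) (p.fp k).top ((p.fp k).map ((s.lf j).win 0 k))))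
    (hX : PLe X (fun k => fc (V k ⊓ Setoid.ker ((p.vv s.Q).cellv c k)))) :
    Nul S (fun k => I (X k) (p.fp k).top ((p.fp k).map ((s.lf j).win c k))) := by
  have hX' : Nul T (fun k => h (X k) (fc (V k) ⊔ (p.fp k).map (fc (Setoid.ker (s.Q.cellv c k))))) := by
    have e2 : (fun k => h (X k) (fc (V k ⊓ Setoid.ker ((p.vv s.Q).cellv c k)))) =
        fun k => h (X k) (fc (V k) ⊔ (p.fp k).map (fc (Setoid.ker (s.Q.cellv c k)))) := by
      funext k
      rw [vv_cellv, fc_inf]
      rfl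
    have h2 : Nul T (fun k => h (X k) (fc (V k ⊓ Setoid.ker ((p.vv s.Q).cellv c k)))) := hX
    rw [e2] at h2
    exact h2
  have hZ : Nul S (fun k => h (fc (Setoid.ker (s.Q.cellv c k))) ((s.lf j).win c k)) := (s.lf j).dg_win hc hc1
  have hA : Nul S (fun k => h ((s.lf j).win 0 k) ((s.lf j).win c k)) := (s.lf j).win_mono hc
  refine ((((Lab.nul_pj p).mp hX').add hZ).add hA |>.add hV).of_le (Eventually.of_forall fun k => I_nonneg _ _ _)
    (Eventually.of_forall fun k => ?_)
  have h2 := leak_copy (x := X k) (v := fc (V k)) ((p.fp k).map_le_top (fc (Setoid.ker (s.Q.cellv c k))))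
    ((p.fp k).map_le_top ((s.lf j).win 0 k)) ((p.fp k).map_le_top ((s.lf j).win c k))
  rw [(p.fp k).h_map, (p.fp k).h_map] at h2
  exact h2

/-- the leak over an extension, finite labels -/
theorem fleak_up {T F : FSp} (p : FPj T F) (hn : T.n = F.n) (u : FLab T) (x z : FL F) :
    u.leak (p.map x) ≤ (FLab.down p hn u).leak x + u.leak (p.map z) := by
  have h0 : (FLab.down p hn u).leak x = I u.v (u.p.map p.top) (u.p.map (p.map x)) := by
    unfold FLab.leak
    have h1 : (FLab.down p hn u).p.map x = u.p.map (p.map x) := FPj.comp_map _ _ _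
    rw [h1]
    rfl
  rw [h0]
  exact leak_ext (u.p.map_le_top _) (u.p.map_mono (p.map_le_top _)) (u.p.map_mono (p.map_le_top _))

/-- a label without leak at `X` has, over the space, no leak at what generates `X` -/
theorem leak_gen (p : Pj T S) {X : Part T} {A : Part S}
    (hX : Nul S (fun k => I (X k) (p.fp k).top ((p.fp k).map (A k)))) {l : Lab T}
    (hl : Nul T (fun k => (l k).leak (X k))) : Nul S (fun k => ((l.down p) k).leak (A k)) :=
  (hX.add ((Lab.nul_pj p).mp hl)).of_le (Eventually.of_forall fun _ => FLab.leak_nonneg _ _)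
    (Eventually.of_forall fun k => FLab.down_leak_of (p.fp k) (p.hn k) (l k) (X k) (A k))

/-- over the extension itself, if the label has no leak at a pulled condition -/
theorem leak_gen_up (p : Pj T S) {A B : Part S} {l : Lab T} (h1 : Nul S (fun k => ((l.down p) k).leak (A k)))
    (h2 : Nul T (fun k => (l k).leak ((p.fp k).map (B k)))) : Nul T (fun k => (l k).leak ((p.fp k).map (A k))) := by
  refine (((Lab.nul_pj p).mpr h1).add h2).of_le (Eventually.of_forall fun k => FLab.leak_nonneg _ _)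
    (Eventually.of_forall fun k => fleak_up (p.fp k) (p.hn k) (l k) (A k) (B k))

/-- LCov, first form: labels of `s'` over the extension are labels of the windows of `s` -/
theorem leak_cov (s : MSys S M E ι) (p : Pj T S) (s' : MSys T M E' κ) (hQ : s'.Q = p.vv s.Q)
    (V : κ → ∀ k, Setoid (T.F k).Ω) {c : ℝ} (hc : 0 ≤ c) (hc1 : c ≤ 1) (i : κ) (j : ι)
    (win : PLe ((s'.lf i).win c) (fun k => fc (V i k ⊓ Setoid.ker (s'.Q.cellv c k))))
    (cov : Nul S (fun k => I (fc (V i k)) (p.fp k).top ((p.fp k).map ((s.lf j).win 0 k)))) {l : Lab T}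
    (hl : Nul T (fun k => (l k).leak ((s'.lf i).win c k))) :
    Nul S (fun k => ((l.down p) k).leak ((s.lf j).win c k)) := by
  obtain ⟨Q', lf'⟩ := s'
  obtain rfl : Q' = p.vv s.Q := hQ
  exact leak_gen p (nul_cov s p j hc hc1 cov win) hl

/-- LCov, second form: over the extension, for labels without leak at the point -/
theorem leak_cov_up (s : MSys S M E ι) (p : Pj T S) (s' : MSys T M E' κ) (hQ : s'.Q = p.vv s.Q)
    (V : κ → ∀ k, Setoid (T.F k).Ω) {c : ℝ} (hc : 0 ≤ c) (hc1 : c ≤ 1) (i : κ) (j : ι)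
    (win : PLe ((s'.lf i).win c) (fun k => fc (V i k ⊓ Setoid.ker (s'.Q.cellv c k))))
    (cov : Nul S (fun k => I (fc (V i k)) (p.fp k).top ((p.fp k).map ((s.lf j).win 0 k)))) {l : Lab T}
    (hl : Nul T (fun k => (l k).leak ((s'.lf i).win c k))) (h0 : Nul T (fun k => (l k).leak (pcd s'.Q k))) :
    Nul T (fun k => (l k).leak ((p.fp k).map ((s.lf j).win c k))) := by
  refine leak_gen_up p (B := pcd s.Q) (leak_cov s p s' hQ V hc hc1 i j win cov hl) ?_
  rw [hQ, pcd_pull] at h0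
  exact h0

/-- the leak at a deep condition, over the space -/
theorem leak_deep (p : Pj T S) {R : ∀ k, Setoid (S.F k).Ω} {R' : ∀ k, Setoid (T.F k).Ω}
    (hR : PLe (fun k => fc (R' k)) (fun k => fc (p.pb R k))) {l : Lab T} (hl : Nul T (fun k => (l k).leak (fc (R' k)))) :
    Nul S (fun k => ((l.down p) k).leak (fc (R k))) :=
  leak_gen p (Lab.nul_of_PLe p (A := fun k => fc (R k)) hR) hl

/-- LABELS OF AUXILIARY SYSTEMS ARE LABELS OF THE SYSTEM, all resolutions: `s'` on an extension, with the same point, its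
windows are known to `V i` and the cell of the point; every type `j` of `s` has a `V (f j)` which is independent of the
space given the leaf of `j`; the resolution `R'` is coarser than `R` -/
theorem cndR_cov (s : MSys S M E ι) (p : Pj T S) (s' : MSys T M E' κ) (hQ : s'.Q = p.vv s.Q)
    (V : κ → ∀ k, Setoid (T.F k).Ω) (f : ι → κ) {c : ℝ} (hc : 0 ≤ c) (hc1 : c ≤ 1)
    (win : ∀ i, PLe ((s'.lf i).win c) (fun k => fc (V i k ⊓ Setoid.ker (s'.Q.cellv c k))))
    (cov : ∀ j, Nul S (fun k => I (fc (V (f j) k)) (p.fp k).top ((p.fp k).map ((s.lf j).win 0 k))))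
    {R : ∀ k, Setoid (S.F k).Ω} {R' : ∀ k, Setoid (T.F k).Ω}
    (hR : PLe (fun k => fc (R' k)) (fun k => fc (p.pb R k))) {l : Lab T} (hl : l.DMf (cndR s' R' c)) :
    (l.down p).DMf (cndR s R c) := by
  intro o
  rcases o with _ | j
  · exact leak_deep p hR (hl none)
  · exact leak_cov s p s' hQ V hc hc1 (f j) j (win (f j)) (cov j) (hl (some (f j)))

/-- ... ordinary labels -/
theorem DMc_cov (s : MSys S M E ι) (p : Pj T S) (s' : MSys T M E' κ) (hQ : s'.Q = p.vv s.Q)
    (V : κ → ∀ k, Setoid (T.F k).Ω) (f : ι → κ) {c : ℝ} (hc : 0 ≤ c) (hc1 : c ≤ 1)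
    (win : ∀ i, PLe ((s'.lf i).win c) (fun k => fc (V i k ⊓ Setoid.ker (s'.Q.cellv c k))))
    (cov : ∀ j, Nul S (fun k => I (fc (V (f j) k)) (p.fp k).top ((p.fp k).map ((s.lf j).win 0 k))))
    {l : Lab T} (hl : s'.DMc c l) : s.DMc c (l.down p) := by
  intro o
  rcases o with _ | j
  · have h1 := hl none
    show Nul S (fun k => ((l.down p) k).leak (pcd s.Q k))
    have h2 : Nul T (fun k => (l k).leak (pcd s'.Q k)) := h1
    rw [hQ, pcd_pull] at h2
    exact leak_gen p (Lab.nul_of_PLe p (PLe.refl _)) h2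
  · exact leak_cov s p s' hQ V hc hc1 (f j) j (win (f j)) (cov j) (hl (some (f j)))

/-- EXACT K-LABELS of a coarser resolution go down -/
theorem kz_cov (p : Pj T S) {R : ∀ k, Setoid (S.F k).Ω} {R' : ∀ k, Setoid (T.F k).Ω}
    (hR : ∀ᶠ k in UF, p.pb R k ≤ R' k) {l : Lab T} (hl : (LC.kz (fun k => fc (R' k))).ev l) :
    (LC.kz (fun k => fc (R k))).ev (l.down p) := by
  have h1 : l.KZ (Part.pull p (fun k => fc (R k))) := Lab.KZ.mono (B := fun k => fc (R' k)) hl (by
    filter_upwards [hR] with k hk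
    exact fc_mono hk)
  exact Lab.KZ.down p h1

/-- K-labels of the point of the auxiliary system are K-labels of a finer resolution -/
theorem kz_pcd_cov (s : MSys S M E ι) (p : Pj T S) (s' : MSys T M E' κ) (hQ : s'.Q = p.vv s.Q)
    {R : ∀ k, Setoid (S.F k).Ω} (hR : ∀ k, R k ≤ Setoid.ker (s.Q.cellv 1 k)) {l : Lab T}
    (hl : (LC.kz (pcd s'.Q)).ev l) : (LC.kz (fun k => fc (R k))).ev (l.down p) := by
  apply kz_cov p (R' := fun k => Setoid.ker (s'.Q.cellv 1 k)) (Eventually.of_forall fun k => ?_) hl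
  rw [hQ, vv_cellv]
  intro ω ω' hw
  exact hR k hw

/-! ### forms -/

/-- FORMS of auxiliary systems are forms of the system, all resolutions -/
theorem Adf_cov [Finite ι] [Finite κ] (s : MSys S M E ι) (p : Pj T S) (s' : MSys T M E' κ) (hQ : s'.Q = p.vv s.Q)
    (V : κ → ∀ k, Setoid (T.F k).Ω) (f : ι → κ) {c : ℝ} (hc : 0 ≤ c) (hc1 : c ≤ 1)
    (win : ∀ i, PLe ((s'.lf i).win c) (fun k => fc (V i k ⊓ Setoid.ker (s'.Q.cellv c k))))
    (cov : ∀ j, Nul S (fun k => I (fc (V (f j) k)) (p.fp k).top ((p.fp k).map ((s.lf j).win 0 k))))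
    {R : ∀ k, Setoid (S.F k).Ω} {R' : ∀ k, Setoid (T.F k).Ω}
    (hR : PLe (fun k => fc (R' k)) (fun k => fc (p.pb R k))) {x : ∀ k, FD (T.F k) (Mon M D)}
    (hx : (gaq s'.Q D).Adf (cndR s' R' c) x) : (gaq s.Q D).Adf (cndR s R c) (dnS p x) := by
  have h1 : Lab.DMf (fun k => (x k).l) (cndR s' R' c) := Gau.Adf.dm _ hx
  have h2 := hx.fm
  rw [hQ, gaq_pull] at h2
  exact Gau.Adf_iff.2 ⟨cndR_cov s p s' hQ V f hc hc1 win cov hR h1, h2.dn⟩

/-- admissible K-forms -/
theorem AdfK_cov [Finite ι] [Finite κ] (s : MSys S M E ι) (p : Pj T S) (s' : MSys T M E' κ) (hQ : s'.Q = p.vv s.Q)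
    (V : κ → ∀ k, Setoid (T.F k).Ω) (f : ι → κ) {c : ℝ} (hc : 0 ≤ c) (hc1 : c ≤ 1)
    (win : ∀ i, PLe ((s'.lf i).win c) (fun k => fc (V i k ⊓ Setoid.ker (s'.Q.cellv c k))))
    (cov : ∀ j, Nul S (fun k => I (fc (V (f j) k)) (p.fp k).top ((p.fp k).map ((s.lf j).win 0 k))))
    {R : ∀ k, Setoid (S.F k).Ω} {R' : ∀ k, Setoid (T.F k).Ω} (hR : ∀ k, p.pb R k ≤ R' k)
    {x : ∀ k, FD (T.F k) (Mon M D)} (hx : (gaq s'.Q D).AdfK (LC.kz (fun k => fc (R' k))) (cndR s' R' c) x) :
    (gaq s.Q D).AdfK (LC.kz (fun k => fc (R k))) (cndR s R c) (dnS p x) :=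
  ⟨Adf_cov s p s' hQ V f hc hc1 win cov (PLe_of_le fun k => fc_mono (hR k)) hx.1,
    kz_cov p (Eventually.of_forall hR) hx.2⟩

/-! ### events and truncations of the independence -/

/-- the independence on an event of the extension -/
theorem cov_im (p : Pj T S) {X : Part T} {A : Part S} (hX : Nul S (fun k => I (X k) (p.fp k).top ((p.fp k).map (A k))))
    (E : ∀ k, (T.F k).Ω → Prop) (hE : 0 < ul (T.pr E)) :
    Nul (Sp.im p E) (fun k => I (X.rest E k) ((Sp.imq p E).fp k).top (((Sp.imq p E).fp k).map (A.im p E k))) := by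
  have h1 : Nul T (fun k => I ((T.F k).rmap (E k) (X k)) ((T.F k).rmap (E k) (p.fp k).top)
      ((T.F k).rmap (E k) ((p.fp k).map (A k)))) :=
    Nul.div_pr (S := T) hE ((Lab.nul_pj p).mpr hX) (fun _ => I_nonneg _ _ _)
      (fun k => (T.F k).rmap_I_le (E k) (X k) (p.fp k).top ((p.fp k).map (A k)))
  have h2 := (Lab.nul_pj p).mp h1
  have e1 : (fun k => I (X.rest E k) ((Sp.imq p E).fp k).top (((Sp.imq p E).fp k).map (A.im p E k))) =
      fun k => I ((T.F k).rmap (E k) (X k)) ((T.F k).rmap (E k) (p.fp k).top)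
      ((T.F k).rmap (E k) ((p.fp k).map (A k))) := by
    funext k
    have e2 : ((Sp.imq p E).fp k).map (A.im p E k) = (T.F k).rmap (E k) ((p.fp k).map (A k)) :=
      congrFun (Part.im_pull p E A) k
    rw [e2]
    rfl
  rw [e1]
  exact h2

/-- the independence in the truncated spaces, literal form -/
theorem cov_trn_iff (s : MSys S M E ι) (p : Pj T S) {b : ℝ} (h0 : 0 < b) (h1 : b ≤ 1) (j : ι)
    {V : ∀ k, Setoid (T.F k).Ω} (c : ℝ) :
    Nul (S.chg S.tr b h0) (fun k => I (fc (F := (T.chg T.tr b h0).F k) (V k)) ((pjb p S.tr b h0).fp k).top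
      (((pjb p S.tr b h0).fp k).map (((s.trn b h0 h1).lf j).win c k))) ↔
    Nul S (fun k => I (fc (V k)) (p.fp k).top ((p.fp k).map ((s.lf j).win (b * c) k))) := by
  rw [nul_trn]
  have e1 : (fun k => I (fc (F := (T.chg T.tr b h0).F k) (V k)) ((pjb p S.tr b h0).fp k).top
      (((pjb p S.tr b h0).fp k).map (((s.trn b h0 h1).lf j).win c k))) =
      fun k => I (fc (V k)) (p.fp k).top ((p.fp k).map ((s.lf j).win (b * c) k)) := by
    funext k
    have e2 : ((s.lf j).Y.chg S.tr b h0).cellv c k = (s.lf j).Y.cellv (b * c) k := cellv_chg (s.lf j).Y b h0 c k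
    have e3 : ((pjb p S.tr b h0).fp k).map (((s.trn b h0 h1).lf j).win c k) =
        fc (F := (T.chg T.tr b h0).F k) (Setoid.comap (p.π k) ((s.lf j).La k ⊓ Setoid.ker ((s.lf j).Y.cellv (b * c) k))) :=
      congrArg (fun f => fc (F := (T.chg T.tr b h0).F k)
        (Setoid.comap (p.π k) ((s.lf j).La k ⊓ Setoid.ker f))) e2
    rw [e3]
    exact I_chg_top (F := T.F k) b h0 (V k) (Setoid.ker (p.π k)) _
  rw [e1]

/-- the independence given the leaf, in the truncated spaces -/
theorem cov_trn (s : MSys S M E ι) (p : Pj T S) {b : ℝ} (h0 : 0 < b) (h1 : b ≤ 1) (j : ι)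
    {V : ∀ k, Setoid (T.F k).Ω}
    (cov : Nul S (fun k => I (fc (V k)) (p.fp k).top ((p.fp k).map ((s.lf j).win 0 k)))) :
    Nul (S.chg S.tr b h0) (fun k => I (fc (F := (T.chg T.tr b h0).F k) (V k)) ((pjb p S.tr b h0).fp k).top
      (((pjb p S.tr b h0).fp k).map (((s.trn b h0 h1).lf j).win 0 k))) := by
  rw [cov_trn_iff, mul_zero]
  exact cov

/-- a partition of the space which is known to the leaf (`p = id`) -/
theorem cov_of_PLe (s : MSys S M E ι) (p : Pj T S) (j : ι) {V : ∀ k, Setoid (S.F k).Ω}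
    (hV : PLe (fun k => fc (V k)) ((s.lf j).win 0)) :
    Nul S (fun k => I (fc (p.pb V k)) (p.fp k).top ((p.fp k).map ((s.lf j).win 0 k))) := by
  refine Nul.of_le hV (Eventually.of_forall fun k => I_nonneg _ _ _) (Eventually.of_forall fun k => ?_)
  refine (I_le_h_left _ _ _).trans ?_
  have e1 : fc (p.pb V k) = (p.fp k).map (fc (V k)) := rfl
  rw [e1, (p.fp k).h_map]

/-- leak exactly zero at the leaf -/
theorem cov_of_zero (s : MSys S M E ι) (p : Pj T S) (j : ι) {V : ∀ k, Setoid (T.F k).Ω}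
    (hV : ∀ᶠ k in UF, I (fc (V k)) (p.fp k).top ((p.fp k).map ((s.lf j).win 0 k)) = 0) :
    Nul S (fun k => I (fc (V k)) (p.fp k).top ((p.fp k).map ((s.lf j).win 0 k))) := by
  refine (Nul_zero S).of_le (Eventually.of_forall fun k => I_nonneg _ _ _) ?_
  filter_upwards [hV] with k hk using hk.le

/-! ### the truncated systems of the chapter -/

/-- THE ROW: labels of `(Q_b ; f_i over V_i)` at the window `c` are labels of `T_b` at the window `c` with the resolution
`R`; here `V_i` lives on an extension and is independent of the space given the leaf of a type, and the `f_i` are the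
leaves over full coordinates -/
theorem lab_trn (s : MSys S M E ι) (p : Pj T S) {b : ℝ} (h0 : 0 < b) (h1 : b ≤ 1) {v g : ℕ} (σ : κ → Fin v → Fin M)
    (V La : κ → ∀ k, Setoid (T.F k).Ω) (Y : κ → T.VV v) (N : κ → ℕ → ℝ) (cc : κ → ∀ k, (T.F k).Ω → Fin v → ℤ)
    (fl : κ → Leaf (T.chg T.tr b h0) ((p.vv s.Q).chg T.tr b h0) (Pool.Agent.Helper84.MT.lin g))
    (x : ∀ i, VLeaf (V i) (p.vv s.Q) (σ i) b h0 g (La i) (Y i) (N i) (cc i) (fl i)) (f : ι → κ)
    (cov : ∀ j, Nul S (fun k => I (fc (V (f j) k)) (p.fp k).top ((p.fp k).map ((s.lf j).win 0 k))))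
    {R : ∀ k, Setoid (S.F k).Ω} (hR : ∀ k, R k ≤ Setoid.ker ((s.trn b h0 h1).Q.cellv 1 k)) {c : ℝ} (hc : 0 ≤ c)
    (hc1 : c ≤ 1) {l : Lab (T.chg T.tr b h0)}
    (hl : (⟨(p.vv s.Q).chg T.tr b h0, fl⟩ : MSys (T.chg T.tr b h0) M (Pool.Agent.Helper84.MT.lin g) κ).DMc c l) :
    (s.trn b h0 h1).DMc c (l.down (pjb p S.tr b h0)) ∧
      (l.down (pjb p S.tr b h0)).DMf (cndR (s.trn b h0 h1) R c) ∧
      ((LC.kz (pcd ((p.vv s.Q).chg T.tr b h0))).ev l →
        (LC.kz (fun k => fc (F := (S.chg S.tr b h0).F k) (R k))).ev (l.down (pjb p S.tr b h0))) := by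
  set s' : MSys (T.chg T.tr b h0) M (Pool.Agent.Helper84.MT.lin g) κ := ⟨(p.vv s.Q).chg T.tr b h0, fl⟩ with hs'
  have hQ : s'.Q = (pjb p S.tr b h0).vv (s.trn b h0 h1).Q := rfl
  have win : ∀ i, PLe (S := T.chg T.tr b h0) ((s'.lf i).win c)
      (fun k => fc (F := (T.chg T.tr b h0).F k) (V i k ⊓ Setoid.ker (s'.Q.cellv c k))) := fun i => vleaf_win (x i) c
  have cov' := fun j => cov_trn s p h0 h1 j (cov j)
  have a1 := DMc_cov (s.trn b h0 h1) (pjb p S.tr b h0) s' hQ V f hc hc1 win cov' hl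
  refine ⟨a1, ?_, fun hz => kz_pcd_cov (s.trn b h0 h1) (pjb p S.tr b h0) s' hQ hR hz⟩
  intro o
  rcases o with _ | j
  · have h2 : PLe (S := S.chg S.tr b h0) (pcd (s.trn b h0 h1).Q) (fun k => fc (F := (S.chg S.tr b h0).F k) (R k)) :=
      PLe_of_le fun k => fc_mono (hR k)
    have h3 : Nul (S.chg S.tr b h0) (fun k => ((l.down (pjb p S.tr b h0)) k).leak (pcd (s.trn b h0 h1).Q k)) := a1 none
    have h4 : (l.down (pjb p S.tr b h0)).DMf (fun _ : Unit => pcd (s.trn b h0 h1).Q) := fun _ => h3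
    exact (Lab.DMf.mono (A' := fun _ : Unit => fun k => fc (F := (S.chg S.tr b h0).F k) (R k)) h4 fun i => ⟨i, h2⟩) ()
  · exact a1 (some j)

end

end Pool.Agent.Helper69.LAB
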